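import Pool.Agent.H336R5.PS.Defs

/-!
Project PSUM: the full polynomial.
-/

set_option autoImplicit false

namespace Pool.Agent.H982R5.PS

open Pool.Agent.H336R5.PS Filter Topology MeasureTheory

theorem cpow_mul (a b : ℕ) (s : ℂ) : ((a * b : ℕ) : ℂ) ^ s = (a : ℂ) ^ s * (b : ℂ) ^ s := by
  rw [Nat.cast_mul]
  exact Complex.natCast_mul_natCast_cpow a b s

theorem cpow_D (U : Finset ℕ) (s : ℂ) : ((D U : ℕ) : ℂ) ^ s = ∏ p ∈ U, (p : ℂ) ^ s := by
  classical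
  induction U using Finset.induction_on with
  | empty => simp [D]
  | insert a U ha ih =>
    have : D (insert a U) = a * D U := by
      simp only [D]
      rw [Finset.prod_insert ha]
    rw [this, cpow_mul, ih, Finset.prod_insert ha]

theorem D_pos (U : Finset ℕ) (h : ∀ p ∈ U, p.Prime) : 0 < D U :=
  Finset.prod_pos fun p hp => (h p hp).pos

theorem D_le {U P : Finset ℕ} (h : ∀ p ∈ P, p.Prime) (hU : U ⊆ P) : D U ≤ D P :=
  Nat.le_of_dvd (D_pos P h) (Finset.prod_dvd_prod_of_subset _ _ _ hU)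

theorem norm_cpow (n : ℕ) (hn : 0 < n) (t : ℝ) : ‖(n : ℂ) ^ (-((t : ℂ) * Complex.I))‖ = 1 := by
  rw [Complex.norm_natCast_cpow_of_pos hn]
  simp

theorem norm_one_add (p : ℕ) (hp : p.Prime) (t : ℝ) :
    ‖1 + (p : ℂ) ^ (-((t : ℂ) * Complex.I))‖ ^ 2 = 2 * u p t := by
  have h0 : (p : ℂ) ≠ 0 := by exact_mod_cast hp.ne_zero
  have h1 : (p : ℂ) ^ (-((t : ℂ) * Complex.I)) =
      Complex.exp (((-(t * Real.log p) : ℝ) : ℂ) * Complex.I) := by
    rw [Complex.cpow_def_of_ne_zero h0, ← Complex.natCast_log]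
    congr 1
    push_cast
    ring
  rw [h1, Complex.sq_norm, Complex.normSq_apply]
  simp only [Complex.add_re, Complex.add_im, Complex.one_re, Complex.one_im,
    Complex.exp_ofReal_mul_I_re, Complex.exp_ofReal_mul_I_im]
  rw [Real.cos_neg, Real.sin_neg, u]
  have := Real.sin_sq_add_cos_sq (t * Real.log p)
  nlinarith

theorem taskG1 : TaskG1 := by
  intro P hP m hm t
  classical
  obtain ⟨s, hs⟩ : ∃ s : ℂ, s = -((t : ℂ) * Complex.I) := ⟨_, rfl⟩
  obtain ⟨S, hS⟩ : ∃ S, S = P.powerset ×ˢ P.powerset := ⟨_, rfl⟩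
  have hmaps : ∀ x ∈ S, m * D (P \ x.2) * D x.1 ∈ Finset.Icc 1 (m * D P ^ 2) := by
    intro x hx
    rw [hS, Finset.mem_product, Finset.mem_powerset, Finset.mem_powerset] at hx
    have h1 : 0 < D (P \ x.2) := D_pos _ fun p hp => hP p (Finset.mem_sdiff.1 hp).1
    have h2 : 0 < D x.1 := D_pos _ fun p hp => hP p (hx.1 hp)
    have h3 : D (P \ x.2) ≤ D P := D_le hP Finset.sdiff_subset
    have h4 : D x.1 ≤ D P := D_le hP hx.1
    rw [Finset.mem_Icc]
    constructor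
    · exact Nat.mul_pos (Nat.mul_pos hm h1) h2
    · rw [pow_two, ← mul_assoc]
      exact Nat.mul_le_mul (Nat.mul_le_mul_left _ h3) h4
  have e1 : ∑ n ∈ Finset.Icc 1 (m * D P ^ 2), coef P m n * (n : ℂ) ^ s =
      (1 / 2 : ℂ) ^ P.card * ∑ x ∈ S, ((m * D (P \ x.2) * D x.1 : ℕ) : ℂ) ^ s := by
    rw [← Finset.sum_fiberwise_of_maps_to hmaps, Finset.mul_sum]
    refine Finset.sum_congr rfl fun n _ => ?_
    rw [coef, ← hS, mul_assoc]
    congr 1
    rw [Finset.card_eq_sum_ones, Nat.cast_sum, Finset.sum_mul]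
    refine Finset.sum_congr rfl fun x hx => ?_
    rw [(Finset.mem_filter.1 hx).2]
    simp
  have e2 : ∑ x ∈ S, ((m * D (P \ x.2) * D x.1 : ℕ) : ℂ) ^ s =
      (m : ℂ) ^ s * ((∏ p ∈ P, (1 + (p : ℂ) ^ s)) * ∏ p ∈ P, (1 + (p : ℂ) ^ s)) := by
    have a1 : ∏ p ∈ P, (1 + (p : ℂ) ^ s) = ∑ U ∈ P.powerset, ((D U : ℕ) : ℂ) ^ s := by
      have := Finset.prod_add (fun p : ℕ => (p : ℂ) ^ s) (fun _ => (1 : ℂ)) P
      simp only [Finset.prod_const_one, mul_one] at this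
      rw [Finset.prod_congr rfl fun p _ => add_comm (1 : ℂ) _, this]
      exact Finset.sum_congr rfl fun U _ => (cpow_D U s).symm
    have a2 : ∏ p ∈ P, (1 + (p : ℂ) ^ s) = ∑ V ∈ P.powerset, ((D (P \ V) : ℕ) : ℂ) ^ s := by
      have := Finset.prod_add (fun _ : ℕ => (1 : ℂ)) (fun p : ℕ => (p : ℂ) ^ s) P
      simp only [Finset.prod_const_one, one_mul] at this
      rw [this]
      exact Finset.sum_congr rfl fun U _ => (cpow_D _ s).symm
    have a3 : (∏ p ∈ P, (1 + (p : ℂ) ^ s)) * ∏ p ∈ P, (1 + (p : ℂ) ^ s) =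
        (∑ U ∈ P.powerset, ((D U : ℕ) : ℂ) ^ s) *
          ∑ V ∈ P.powerset, ((D (P \ V) : ℕ) : ℂ) ^ s := by rw [← a1, ← a2]
    rw [a3, hS, Finset.sum_product, Finset.sum_mul_sum, Finset.mul_sum]
    refine Finset.sum_congr rfl fun U _ => ?_
    rw [Finset.mul_sum]
    refine Finset.sum_congr rfl fun V _ => ?_
    simp only [cpow_mul]
    ring
  rw [← hs, e1, e2, norm_mul, norm_mul, norm_mul, norm_pow, hs, norm_cpow m (by omega) t]
  rw [Finset.prod_congr rfl fun p _ => rfl, norm_prod]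
  have e3 : (∏ p ∈ P, ‖1 + (p : ℂ) ^ (-((t : ℂ) * Complex.I))‖) *
      (∏ p ∈ P, ‖1 + (p : ℂ) ^ (-((t : ℂ) * Complex.I))‖) = 2 ^ P.card * f P t := by
    rw [← Finset.prod_mul_distrib, f]
    rw [← Finset.prod_const, ← Finset.prod_mul_distrib]
    refine Finset.prod_congr rfl fun p hp => ?_
    rw [← norm_one_add p (hP p hp) t, pow_two]
  rw [one_mul, e3, ← mul_assoc, ← mul_pow]
  have : ‖(1 / 2 : ℂ)‖ * 2 = 1 := by norm_num
  rw [this, one_pow, one_mul]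

end Pool.Agent.H982R5.PS
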